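import Pool.Agent.W966.Vg.Parts

set_option autoImplicit false

/-!
# Polynomial maps which are defined by systems of equations are approximatively computable

Definitions: `LF`, `NTree`, `NTree.Acc`, `NTree.Accepts`, `NSComp`, `SLComp`, `InClosure` are in
`Pool.Agent.W966.Vg.Defs`.
-/

namespace Pool.Agent.Results.MP_57f271_lc.MapsDefinedBySystems

open MvPolynomial Pool.Agent.W966.Vg

/-- Let `K` be an algebraically closed field of characteristic `0`, let `f = (f₁, …, f_k)` be
polynomials of degree at most `d` in `n` variables over `K`, and let `t` be a nondeterministic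
algebraic computation tree with inputs `x ∈ K ^ n`, `y ∈ K ^ k` (it can guess the values of unknowns
and test equations and inequations). Suppose that for a Zariski dense set of `x`, with at most `L`
multiplications and divisions,

* `t` can accept `(x, f x)`, and
* there are at most `M` points `y` such that `t` can accept `(x, y)`

(`M` is any number which does not depend on `x`). Then

(1) `f` lies in the Zariski closure of the set of `k`-tuples of polynomials which can be computed
together with `L d (d - 1) / 2` multiplications, additions and multiplications by constants being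
free;

(2) `f` lies in the Zariski closure of the set of `k`-tuples of polynomials which can be computed
together with at most `(L' + k) (4 (n + L') + 1)` additions, subtractions and multiplications,
where `L' = L d (d - 1) / 2`. -/
theorem result {K : Type} [Field K] [IsAlgClosed K] [CharZero K] (n k L M d : ℕ)
    (t : NTree K (Fin n ⊕ Fin k)) (f : Fin k → MvPolynomial (Fin n) K)
    (hd : ∀ v, (f v).totalDegree ≤ d)
    (H : ∀ p : MvPolynomial (Fin n) K, p ≠ 0 → ∃ x : Fin n → K, eval x p ≠ 0 ∧
      t.Accepts (Sum.elim x fun v => eval x (f v)) L ∧
      ∃ 𝒞 : Fin M → Fin k → K, ∀ y : Fin k → K, t.Accepts (Sum.elim x y) L → ∃ i, y = 𝒞 i) :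
    InClosure {g : Fin k → MvPolynomial (Fin n) K |
      NSComp K (Fin n) (Fin k) (L * (d * (d - 1) / 2)) g} f ∧
    ∀ L' : ℕ, L' = L * (d * (d - 1) / 2) →
      InClosure {g : Fin k → MvPolynomial (Fin n) K |
        SLComp K (Fin n) (Fin k) ((L' + k) * (4 * (n + L') + 1)) g} f := by
  have h1 := graph_ns t f hd H
  refine ⟨h1, ?_⟩
  rintro L' rfl
  have h3 := closure_total le_rfl h1
  rwa [Fintype.card_fin, Fintype.card_fin] at h3

end Pool.Agent.Results.MP_57f271_lc.MapsDefinedBySystems
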