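import Mathlib
import Pool.Agent.W964.Wd.Machine
import Pool.Agent.W964.Wd.Hn.QuadMain

/-!
Hilbert's Nullstellensatz over the complex numbers (or any other field) for ideal parallel random
access machines whose cells contain field elements (priority concurrent writing, concurrent
searching of lists of cells, arbitrary instruction set, unbounded memory, different programs for
different processors): in `T = o (log n / log log n)` steps polynomially many (even
`2 ^ (n ^ (c / T))`) processors do not decide whether a system of `2 n` quadratic equations in `n`
unknowns, with at most three terms each, has a solution.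
-/

set_option autoImplicit false

open Finset Filter MvPolynomial Pool.Agent.W964.Wd

namespace Pool.Agent.Results.MP_57f271_lc.QuadraticSystems

/-- 1. There are `c > 0` and `n₁` such that the following holds for `n ≥ n₁` unknowns and `T ≥ 1`
steps with `T log log n ≤ c log n`. Let `F` be a field (for instance `ℂ`) and let `R` be a
randomized parallel machine over `F` with at most `2 ^ (n ^ (c / T))` processors and lists of
length at most `2 ^ (n ^ (c / T))` whose input is a system of `2 n` polynomials in `n` variables,
every coefficient of every polynomial being the content of a cell. Then there are `2 n` polynomials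
with integer coefficients, of degree at most `2` and with at most three terms each, such that after
`T` steps `R` gives the right answer to the question whether they have a common zero in `F ^ n`
with probability at most `1 / 2 + n ^ (-c)`.

2. If `T n = o (log n / log log n)` and `e` is a natural number, then for all large `n` every
randomized parallel machine over any field with at most `n ^ e` processors and lists of length at
most `n ^ e` errs after `T n` steps with probability more than `1 / 3` for some such system. -/
theorem result :
    (∃ c : ℝ, 0 < c ∧ ∃ n₁ : ℕ, 3 ≤ n₁ ∧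
      ∀ n T : ℕ, n₁ ≤ n → 1 ≤ T → T * Real.log (Real.log n) ≤ c * Real.log n →
      ∀ (F : Type) [Field F] (P k : ℕ) (R : RandMachine F (Fin (2 * n) × (Fin n →₀ ℕ)) P),
        (P : ℝ) ≤ 2 ^ ((n : ℝ) ^ (c / T)) → R.Lists k → (k : ℝ) ≤ 2 ^ ((n : ℝ) ^ (c / T)) →
        ∃ f : Fin (2 * n) → MvPolynomial (Fin n) ℤ,
          (∀ i, (f i).totalDegree ≤ 2 ∧ (f i).support.card ≤ 3) ∧
          R.success T (fun j => ((coeff j.2 (f j.1) : ℤ) : F))
            (∃ z : Fin n → F, ∀ i, aeval z (f i) = 0) ≤ 1 / 2 + (n : ℝ) ^ (-c)) ∧
    (∀ T : ℕ → ℕ, (∀ n, 1 ≤ T n) →
      (fun n : ℕ => (T n : ℝ) * Real.log (Real.log n)) =o[atTop]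
        (fun n : ℕ => Real.log (n : ℝ)) →
      ∀ e : ℕ, ∀ᶠ n : ℕ in atTop, ∀ (F : Type) [Field F] (P : ℕ)
        (R : RandMachine F (Fin (2 * n) × (Fin n →₀ ℕ)) P), P ≤ n ^ e → R.Lists (n ^ e) →
        ∃ f : Fin (2 * n) → MvPolynomial (Fin n) ℤ,
          (∀ i, (f i).totalDegree ≤ 2 ∧ (f i).support.card ≤ 3) ∧
          R.success (T n) (fun j => ((coeff j.2 (f j.1) : ℤ) : F))
            (∃ z : Fin n → F, ∀ i, aeval z (f i) = 0) < 2 / 3) :=
  ⟨quad_rand, fun T hT hTo e => quad_asym T hT hTo e⟩

end Pool.Agent.Results.MP_57f271_lc.QuadraticSystems
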